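/-
MP_eb7570_an (helper61): Wiener norm calculus of power series.

`Bd ρ a M`: `∑ |a_k| ρ^k ≤ M`.  `ev a s = ∑ a_k s^k`.
-/
import Mathlib

set_option autoImplicit false

namespace Pool.Agent.PPW.TM

open PowerSeries Finset

/-- `∑ |a_k| ρ^k ≤ M` (all partial sums). -/
def Bd (ρ : ℝ) (a : PowerSeries ℝ) (M : ℝ) : Prop :=
  ∀ N : ℕ, ∑ k ∈ range N, |coeff k a| * ρ ^ k ≤ M

/-- evaluation of a power series at a real number -/
noncomputable def ev (a : PowerSeries ℝ) (s : ℝ) : ℝ := ∑' k : ℕ, coeff k a * s ^ k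

variable {ρ : ℝ} {a b c : PowerSeries ℝ} {M N : ℝ}

theorem Bd.nonneg (h : Bd ρ a M) : 0 ≤ M := by simpa using h 0

theorem Bd.mono (h : Bd ρ a M) (hMN : M ≤ N) : Bd ρ a N := fun K => (h K).trans hMN

theorem Bd.zero : Bd ρ 0 0 := fun K => by simp

theorem Bd.neg (h : Bd ρ a M) : Bd ρ (-a) M := fun K => by
  simpa only [map_neg, abs_neg] using h K

theorem Bd.add (hρ : 0 ≤ ρ) (ha : Bd ρ a M) (hb : Bd ρ b N) : Bd ρ (a + b) (M + N) := fun K => by
  refine le_trans ?_ (add_le_add (ha K) (hb K))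
  rw [← sum_add_distrib]
  refine sum_le_sum fun k _ => ?_
  rw [map_add, ← add_mul]
  exact mul_le_mul_of_nonneg_right (abs_add_le _ _) (pow_nonneg hρ k)

theorem Bd.sub (hρ : 0 ≤ ρ) (ha : Bd ρ a M) (hb : Bd ρ b N) : Bd ρ (a - b) (M + N) := by
  rw [sub_eq_add_neg]; exact ha.add hρ hb.neg

theorem Bd.C_mul (t : ℝ) (ha : Bd ρ a M) : Bd ρ (C t * a) (|t| * M) := fun K => by
  have : ∑ k ∈ range K, |coeff k (C t * a)| * ρ ^ k
      = |t| * ∑ k ∈ range K, |coeff k a| * ρ ^ k := by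
    rw [mul_sum]
    refine sum_congr rfl fun k _ => ?_
    rw [coeff_C_mul, abs_mul, mul_assoc]
  rw [this]
  exact mul_le_mul_of_nonneg_left (ha K) (abs_nonneg t)

theorem Bd.const (t : ℝ) : Bd ρ (C t) |t| := fun K => by
  rcases K with _ | K
  · simp
  · rw [sum_eq_single 0]
    · simp
    · intro k _ hk
      rw [coeff_C_of_ne_zero hk]; simp
    · simp

theorem Bd.X_mul (hρ : 0 ≤ ρ) (ha : Bd ρ a M) : Bd ρ (X * a) (ρ * M) := fun K => by
  rcases K with _ | K
  · simp only [range_zero, sum_empty]; exact mul_nonneg hρ ha.nonneg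
  · rw [sum_range_succ']
    simp only [coeff_zero_X_mul, abs_zero, zero_mul, add_zero]
    have : ∑ k ∈ range K, |coeff (k + 1) (X * a)| * ρ ^ (k + 1)
        = ρ * ∑ k ∈ range K, |coeff k a| * ρ ^ k := by
      rw [mul_sum]
      refine sum_congr rfl fun k _ => ?_
      rw [coeff_succ_X_mul, pow_succ]; ring
    rw [this]
    exact mul_le_mul_of_nonneg_left (ha K) hρ

theorem Bd.mul (hρ : 0 ≤ ρ) (ha : Bd ρ a M) (hb : Bd ρ b N) : Bd ρ (a * b) (M * N) := fun K => by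
  have h1 : ∑ k ∈ range K, |coeff k (a * b)| * ρ ^ k ≤
      ∑ k ∈ range K, ∑ p ∈ antidiagonal k, (|coeff p.1 a| * ρ ^ p.1) * (|coeff p.2 b| * ρ ^ p.2) := by
    refine sum_le_sum fun k _ => ?_
    rw [coeff_mul]
    calc |∑ p ∈ antidiagonal k, coeff p.1 a * coeff p.2 b| * ρ ^ k
        ≤ (∑ p ∈ antidiagonal k, |coeff p.1 a * coeff p.2 b|) * ρ ^ k :=
          mul_le_mul_of_nonneg_right (abs_sum_le_sum_abs _ _) (pow_nonneg hρ k)
      _ = ∑ p ∈ antidiagonal k, (|coeff p.1 a| * ρ ^ p.1) * (|coeff p.2 b| * ρ ^ p.2) := by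
          rw [sum_mul]
          refine sum_congr rfl fun p hp => ?_
          rw [HasAntidiagonal.mem_antidiagonal] at hp
          rw [abs_mul, ← hp, pow_add]; ring
  refine h1.trans ?_
  have h2 : ∑ k ∈ range K, ∑ p ∈ antidiagonal k,
      (|coeff p.1 a| * ρ ^ p.1) * (|coeff p.2 b| * ρ ^ p.2)
      ≤ ∑ p ∈ range K ×ˢ range K, (|coeff p.1 a| * ρ ^ p.1) * (|coeff p.2 b| * ρ ^ p.2) := by
    rw [← sum_biUnion]
    · refine sum_le_sum_of_subset_of_nonneg ?_ ?_
      · intro p hp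
        rw [mem_biUnion] at hp
        obtain ⟨k, hk, hp⟩ := hp
        rw [HasAntidiagonal.mem_antidiagonal] at hp
        rw [mem_range] at hk
        rw [mem_product, mem_range, mem_range]
        omega
      · intro p _ _
        positivity
    · intro i _ j _ hij
      rw [Function.onFun, Finset.disjoint_left]
      intro p hp hp'
      rw [HasAntidiagonal.mem_antidiagonal] at hp hp'
      exact hij (hp.symm.trans hp')
  refine h2.trans ?_
  rw [sum_product]
  have h3 : (∑ x ∈ range K, ∑ y ∈ range K, (|coeff x a| * ρ ^ x) * (|coeff y b| * ρ ^ y))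
      = (∑ x ∈ range K, |coeff x a| * ρ ^ x) * ∑ y ∈ range K, |coeff y b| * ρ ^ y := by
    rw [sum_mul_sum]
  refine h3.le.trans ?_
  exact mul_le_mul (ha K) (hb K) (sum_nonneg fun k _ => by positivity) ha.nonneg

theorem Bd.summable (hρ : 0 ≤ ρ) (ha : Bd ρ a M) : Summable (fun k => |coeff k a| * ρ ^ k) :=
  summable_of_sum_range_le (fun k => by positivity) ha

theorem Bd.tsum_le (hρ : 0 ≤ ρ) (ha : Bd ρ a M) : ∑' k, |coeff k a| * ρ ^ k ≤ M :=
  (ha.summable hρ).tsum_le_of_sum_range_le ha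

theorem Bd.of_summable (hρ : 0 ≤ ρ) (hs : Summable (fun k => |coeff k a| * ρ ^ k))
    (hM : ∑' k, |coeff k a| * ρ ^ k ≤ M) : Bd ρ a M := fun K =>
  (hs.sum_le_tsum (range K) (fun k _ => by positivity)).trans hM

theorem Bd.norm_le {s : ℝ} (hs : |s| ≤ ρ) (k : ℕ) :
    ‖coeff k a * s ^ k‖ ≤ |coeff k a| * ρ ^ k := by
  rw [norm_mul, norm_pow, Real.norm_eq_abs, Real.norm_eq_abs]
  exact mul_le_mul_of_nonneg_left (pow_le_pow_left₀ (abs_nonneg s) hs k) (abs_nonneg _)

theorem Bd.summable_ev (ha : Bd ρ a M) {s : ℝ} (hs : |s| ≤ ρ) :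
    Summable (fun k => coeff k a * s ^ k) :=
  Summable.of_norm_bounded (ha.summable ((abs_nonneg s).trans hs)) (fun k => Bd.norm_le hs k)

theorem Bd.abs_ev_le (ha : Bd ρ a M) {s : ℝ} (hs : |s| ≤ ρ) : |ev a s| ≤ M := by
  have hρ : 0 ≤ ρ := (abs_nonneg s).trans hs
  have h := tsum_of_norm_bounded (ha.summable hρ).hasSum (fun k => Bd.norm_le (a := a) hs k)
  rw [Real.norm_eq_abs] at h
  exact h.trans (ha.tsum_le hρ)

theorem ev_add (ha : Bd ρ a M) (hb : Bd ρ b N) {s : ℝ} (hs : |s| ≤ ρ) :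
    ev (a + b) s = ev a s + ev b s := by
  unfold ev
  rw [← (ha.summable_ev hs).tsum_add (hb.summable_ev hs)]
  exact tsum_congr fun k => by rw [map_add, add_mul]

theorem ev_neg (a : PowerSeries ℝ) (s : ℝ) : ev (-a) s = - ev a s := by
  unfold ev
  rw [← tsum_neg]
  exact tsum_congr fun k => by rw [map_neg, neg_mul]

theorem ev_sub (ha : Bd ρ a M) (hb : Bd ρ b N) {s : ℝ} (hs : |s| ≤ ρ) :
    ev (a - b) s = ev a s - ev b s := by
  rw [sub_eq_add_neg, ev_add ha hb.neg hs, ev_neg, ← sub_eq_add_neg]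

theorem ev_C_mul (t : ℝ) (a : PowerSeries ℝ) (s : ℝ) : ev (C t * a) s = t * ev a s := by
  unfold ev
  rw [← tsum_mul_left]
  exact tsum_congr fun k => by rw [coeff_C_mul, mul_assoc]

theorem ev_C (t : ℝ) (s : ℝ) : ev (C t) s = t := by
  unfold ev
  rw [tsum_eq_single 0]
  · simp
  · intro k hk; rw [coeff_C_of_ne_zero hk, zero_mul]

theorem ev_zero (s : ℝ) : ev 0 s = 0 := by unfold ev; simp

theorem ev_one (s : ℝ) : ev 1 s = 1 := by rw [← map_one (C (R := ℝ)), ev_C]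

theorem ev_mul (ha : Bd ρ a M) (hb : Bd ρ b N) {s : ℝ} (hs : |s| ≤ ρ) :
    ev (a * b) s = ev a s * ev b s := by
  have hρ : 0 ≤ ρ := (abs_nonneg s).trans hs
  have h1 : Summable (fun k => ‖coeff k a * s ^ k‖) :=
    Summable.of_nonneg_of_le (fun k => norm_nonneg _) (fun k => Bd.norm_le hs k) (ha.summable hρ)
  have h2 : Summable (fun k => ‖coeff k b * s ^ k‖) :=
    Summable.of_nonneg_of_le (fun k => norm_nonneg _) (fun k => Bd.norm_le hs k) (hb.summable hρ)
  unfold ev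
  rw [tsum_mul_tsum_eq_tsum_sum_antidiagonal_of_summable_norm h1 h2]
  refine tsum_congr fun k => ?_
  rw [coeff_mul, sum_mul]
  refine sum_congr rfl fun p hp => ?_
  rw [HasAntidiagonal.mem_antidiagonal] at hp
  rw [← hp, pow_add]; ring

theorem ev_X_mul (ha : Bd ρ a M) {s : ℝ} (hs : |s| ≤ ρ) : ev (X * a) s = s * ev a s := by
  have h1 : Summable (fun k => coeff k (X * a) * s ^ k) :=
    (ha.X_mul ((abs_nonneg s).trans hs)).summable_ev hs
  unfold ev
  rw [h1.tsum_eq_zero_add]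
  simp only [coeff_zero_X_mul, zero_mul, zero_add]
  rw [← tsum_mul_left]
  exact tsum_congr fun k => by rw [coeff_succ_X_mul, pow_succ]; ring

theorem continuousOn_ev (hρ : 0 ≤ ρ) (ha : Bd ρ a M) : ContinuousOn (ev a) (Set.Icc (-ρ) ρ) := by
  unfold ev
  refine continuousOn_tsum (u := fun k => |coeff k a| * ρ ^ k) (fun k => by fun_prop)
    (ha.summable hρ) ?_
  intro k s hs
  exact Bd.norm_le (abs_le.2 ⟨hs.1, hs.2⟩) k

/-! ### inverse -/

/-- If `a c = 1` and `chat` is an approximate inverse, then `c - chat` is small. -/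
theorem Bd.inv_aux (hρ : 0 ≤ ρ) {chat u : PowerSeries ℝ} {K δ : ℝ} (hu : Bd ρ u δ) (hδ : δ < 1)
    (hc : Bd ρ chat K) (h : c = chat + u * c) : Bd ρ c (K / (1 - δ)) := by
  intro n
  have h1 : ∀ n : ℕ, ∑ k ∈ range n, |coeff k c| * ρ ^ k
      ≤ K + δ * ∑ k ∈ range n, |coeff k c| * ρ ^ k := by
    intro n
    set cn : PowerSeries ℝ := PowerSeries.mk (fun k => if k < n then coeff k c else 0) with hcn
    have e1 : ∀ m, ∑ k ∈ range m, |coeff k cn| * ρ ^ k ≤ ∑ k ∈ range n, |coeff k c| * ρ ^ k := by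
      intro m
      have : ∑ k ∈ range m, |coeff k cn| * ρ ^ k
          = ∑ k ∈ (range m).filter (fun k => k < n), |coeff k c| * ρ ^ k := by
        rw [sum_filter]
        refine sum_congr rfl fun k _ => ?_
        rw [hcn, coeff_mk]
        split_ifs <;> simp
      rw [this]
      refine sum_le_sum_of_subset_of_nonneg ?_ (fun k _ _ => by positivity)
      intro k hk
      rw [mem_filter] at hk
      exact mem_range.2 hk.2
    have e2 : Bd ρ cn (∑ k ∈ range n, |coeff k c| * ρ ^ k) := e1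
    have e3 := (hc.add hρ (hu.mul hρ e2)) n
    refine le_trans (le_of_eq ?_) e3
    refine sum_congr rfl fun k hk => ?_
    rw [mem_range] at hk
    have : coeff k c = coeff k (chat + u * cn) := by
      conv_lhs => rw [h]
      rw [map_add, map_add, coeff_mul, coeff_mul]
      congr 1
      refine sum_congr rfl fun p hp => ?_
      rw [HasAntidiagonal.mem_antidiagonal] at hp
      rw [hcn, coeff_mk, if_pos (by omega)]
    rw [this]
  have h2 := h1 n
  rw [le_div_iff₀ (by linarith)]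
  linarith

theorem Bd.inv (hρ : 0 ≤ ρ) {chat : PowerSeries ℝ} {K δ : ℝ} (hac : a * c = 1)
    (hu : Bd ρ (1 - a * chat) δ) (hδ : δ < 1) (hc : Bd ρ chat K) :
    Bd ρ (c - chat) (δ * (K / (1 - δ))) := by
  have h : c = chat + (1 - a * chat) * c := by
    have : c = c * (a * c) := by rw [hac, mul_one]
    linear_combination chat * hac
  have h2 := hu.mul hρ (Bd.inv_aux hρ hu hδ hc h)
  have h3 : c - chat = (1 - a * chat) * c := by linear_combination chat * hac
  rw [h3]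
  exact h2

/-! ### derivative -/

/-- formal derivative -/
noncomputable def der (a : PowerSeries ℝ) : PowerSeries ℝ :=
  PowerSeries.mk fun k => ((k : ℝ) + 1) * coeff (k + 1) a

theorem coeff_der (a : PowerSeries ℝ) (k : ℕ) : coeff k (der a) = ((k : ℝ) + 1) * coeff (k + 1) a := by
  unfold der; rw [coeff_mk]

theorem der_add (a b : PowerSeries ℝ) : der (a + b) = der a + der b := by
  ext k; rw [map_add, coeff_der, coeff_der, coeff_der, map_add, mul_add]

theorem der_sub (a b : PowerSeries ℝ) : der (a - b) = der a - der b := by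
  ext k; rw [map_sub, coeff_der, coeff_der, coeff_der, map_sub, mul_sub]

/-- Cauchy type estimate for the derivative. -/
theorem Bd.der {ρ' : ℝ} (hρ' : 0 ≤ ρ') (h : ρ' < ρ) (ha : Bd ρ a M) :
    Bd ρ' (der a) (M / (ρ - ρ')) := fun K => by
  have hρ : 0 < ρ := hρ'.trans_lt h
  have key : ∀ k : ℕ, ((k : ℝ) + 1) * ρ' ^ k * (ρ - ρ') ≤ ρ ^ (k + 1) := by
    intro k
    have h1 : ∀ k : ℕ, ((k : ℝ) + 1) * ρ' ^ k * (ρ - ρ') + ρ' ^ (k + 1) ≤ ρ ^ (k + 1) := by
      intro k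
      induction k with
      | zero => norm_num
      | succ k ih =>
        have e1 : (((k + 1 : ℕ) : ℝ) + 1) * ρ' ^ (k + 1) * (ρ - ρ') + ρ' ^ (k + 1 + 1)
            = ρ' * (((k : ℝ) + 1) * ρ' ^ k * (ρ - ρ') + ρ' ^ (k + 1)) + ρ' ^ (k + 1) * (ρ - ρ') := by
          push_cast; ring
        rw [e1]
        have e2 : ρ' ^ (k + 1) ≤ ρ ^ (k + 1) := pow_le_pow_left₀ hρ' h.le _
        have e3 : ρ' * (((k : ℝ) + 1) * ρ' ^ k * (ρ - ρ') + ρ' ^ (k + 1)) ≤ ρ' * ρ ^ (k + 1) :=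
          mul_le_mul_of_nonneg_left ih hρ'
        have e4 : ρ' ^ (k + 1) * (ρ - ρ') ≤ ρ ^ (k + 1) * (ρ - ρ') :=
          mul_le_mul_of_nonneg_right e2 (by linarith)
        calc _ ≤ ρ' * ρ ^ (k + 1) + ρ ^ (k + 1) * (ρ - ρ') := add_le_add e3 e4
          _ = ρ ^ (k + 1 + 1) := by ring
    have := h1 k
    have h0 : 0 ≤ ρ' ^ (k + 1) := pow_nonneg hρ' _
    linarith
  rw [le_div_iff₀ (by linarith), sum_mul]
  calc ∑ k ∈ range K, |coeff k (TM.der a)| * ρ' ^ k * (ρ - ρ')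
      ≤ ∑ k ∈ range K, |coeff (k + 1) a| * ρ ^ (k + 1) := by
        refine sum_le_sum fun k _ => ?_
        rw [coeff_der, abs_mul, abs_of_nonneg (by positivity : (0:ℝ) ≤ (k : ℝ) + 1)]
        calc ((k : ℝ) + 1) * |coeff (k + 1) a| * ρ' ^ k * (ρ - ρ')
            = |coeff (k + 1) a| * (((k : ℝ) + 1) * ρ' ^ k * (ρ - ρ')) := by ring
          _ ≤ |coeff (k + 1) a| * ρ ^ (k + 1) :=
            mul_le_mul_of_nonneg_left (key k) (abs_nonneg _)
    _ ≤ ∑ k ∈ range (K + 1), |coeff k a| * ρ ^ k := by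
        rw [sum_range_succ']
        have : 0 ≤ |coeff 0 a| * ρ ^ 0 := by positivity
        linarith
    _ ≤ M := ha (K + 1)

theorem hasDerivAt_ev (ha : Bd ρ a M) {s : ℝ} (hs : |s| < ρ) :
    HasDerivAt (ev a) (ev (der a) s) s := by
  have hρ : 0 < ρ := (abs_nonneg s).trans_lt hs
  obtain ⟨ρ', h1, h2⟩ := exists_between hs
  have hρ' : 0 < ρ' := (abs_nonneg s).trans_lt h1
  have hd := ha.der hρ'.le h2
  have key : HasDerivAt (fun x => ∑' k : ℕ, coeff (k + 1) a * x ^ (k + 1))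
      (∑' k : ℕ, coeff k (der a) * s ^ k) s := by
    refine hasDerivAt_tsum_of_isPreconnected (u := fun k => |coeff k (der a)| * ρ' ^ k)
      (hd.summable hρ'.le) (t := Metric.ball (0:ℝ) ρ') Metric.isOpen_ball
      ((convex_ball (0:ℝ) ρ').isPreconnected) (g := fun k x => coeff (k + 1) a * x ^ (k + 1))
      (g' := fun k x => coeff k (der a) * x ^ k) ?_ ?_ (y₀ := 0) ?_ ?_ ?_
    · intro k y _
      have := (hasDerivAt_pow (k + 1) y).const_mul (coeff (k + 1) a)
      refine this.congr_deriv ?_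
      rw [coeff_der, Nat.add_sub_cancel]; push_cast; ring
    · intro k y hy
      refine Bd.norm_le ?_ k
      rw [Metric.mem_ball, dist_zero_right, Real.norm_eq_abs] at hy
      exact hy.le
    · simp [hρ']
    · exact (summable_nat_add_iff 1).2 (ha.summable_ev (s := 0) (by simpa using hρ.le))
    · rw [Metric.mem_ball, dist_zero_right, Real.norm_eq_abs]; exact h1
  have h3 := key.const_add (coeff 0 a)
  refine h3.congr_of_eventuallyEq ?_
  filter_upwards [Metric.isOpen_ball.mem_nhds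
    (show s ∈ Metric.ball (0:ℝ) ρ by rwa [Metric.mem_ball, dist_zero_right, Real.norm_eq_abs])]
    with x hx
  rw [Metric.mem_ball, dist_zero_right, Real.norm_eq_abs] at hx
  unfold ev
  rw [(ha.summable_ev hx.le).tsum_eq_zero_add]
  simp

/-! ### division by `s0 - s` -/

/-- divided difference: `(s0 - s) dd = a - a(s0)`. -/
noncomputable def dd (s0 : ℝ) (a : PowerSeries ℝ) : PowerSeries ℝ :=
  PowerSeries.mk fun k => - ∑' i : ℕ, coeff (k + 1 + i) a * s0 ^ i

theorem coeff_dd (s0 : ℝ) (a : PowerSeries ℝ) (k : ℕ) :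
    coeff k (dd s0 a) = - ∑' i : ℕ, coeff (k + 1 + i) a * s0 ^ i := by
  unfold dd; rw [coeff_mk]

theorem dd_norm_le {s0 : ℝ} (hs : |s0| < ρ) (k i : ℕ) :
    ‖coeff (k + 1 + i) a * s0 ^ i‖
      ≤ (|coeff (k + 1 + i) a| * ρ ^ (k + 1 + i)) * ((|s0| / ρ) ^ i * (ρ ^ (k + 1))⁻¹) := by
  have hρ : 0 < ρ := (abs_nonneg s0).trans_lt hs
  rw [norm_mul, norm_pow, Real.norm_eq_abs, Real.norm_eq_abs, div_pow]
  apply le_of_eq
  rw [pow_add ρ (k + 1) i]
  field_simp

theorem dd_summable {s0 : ℝ} (ha : Bd ρ a M) (hs : |s0| < ρ) (k : ℕ) :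
    Summable (fun i : ℕ => coeff (k + 1 + i) a * s0 ^ i) := by
  have hρ : 0 < ρ := (abs_nonneg s0).trans_lt hs
  have h1 : Summable (fun i : ℕ => |coeff (i + (k + 1)) a| * ρ ^ (i + (k + 1))) :=
    (summable_nat_add_iff (k + 1)).2 (ha.summable hρ.le)
  refine Summable.of_norm_bounded (h1.mul_right (ρ ^ (k + 1))⁻¹) (fun i => ?_)
  refine (dd_norm_le hs k i).trans ?_
  rw [show i + (k + 1) = k + 1 + i by ring]
  refine mul_le_mul_of_nonneg_left ?_ (by positivity)
  have : (|s0| / ρ) ^ i ≤ 1 := pow_le_one₀ (by positivity) (by rw [div_le_one hρ]; exact hs.le)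
  calc (|s0| / ρ) ^ i * (ρ ^ (k + 1))⁻¹ ≤ 1 * (ρ ^ (k + 1))⁻¹ :=
        mul_le_mul_of_nonneg_right this (by positivity)
    _ = _ := one_mul _

theorem Bd.dd {s0 : ℝ} (ha : Bd ρ a M) (hs : |s0| < ρ) : Bd ρ (dd s0 a) (M / (ρ - |s0|)) := fun K => by
  have hρ : 0 < ρ := (abs_nonneg s0).trans_lt hs
  set x : ℝ := |s0| / ρ with hx
  have hx0 : 0 ≤ x := by positivity
  have hx1 : x < 1 := by rw [hx, div_lt_one hρ]; exact hs
  -- bound each coefficient by a tsum
  have h1 : ∀ k, |coeff k (TM.dd s0 a)| * ρ ^ k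
      ≤ ∑' i : ℕ, (|coeff (k + 1 + i) a| * ρ ^ (k + 1 + i)) * (x ^ i * ρ⁻¹) := by
    intro k
    have hsum : Summable (fun i : ℕ =>
        (|coeff (k + 1 + i) a| * ρ ^ (k + 1 + i)) * (x ^ i * (ρ ^ (k + 1))⁻¹)) := by
      have h1 : Summable (fun i : ℕ => |coeff (i + (k + 1)) a| * ρ ^ (i + (k + 1))) :=
        (summable_nat_add_iff (k + 1)).2 (ha.summable hρ.le)
      refine Summable.of_nonneg_of_le (fun i => by positivity) (fun i => ?_)
        (h1.mul_right (ρ ^ (k + 1))⁻¹)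
      rw [show i + (k + 1) = k + 1 + i by ring]
      refine mul_le_mul_of_nonneg_left ?_ (by positivity)
      calc x ^ i * (ρ ^ (k + 1))⁻¹ ≤ 1 * (ρ ^ (k + 1))⁻¹ :=
            mul_le_mul_of_nonneg_right (pow_le_one₀ hx0 hx1.le) (by positivity)
        _ = _ := one_mul _
    have h2 := tsum_of_norm_bounded hsum.hasSum (fun i => dd_norm_le (a := a) hs k i)
    rw [coeff_dd, abs_neg, ← Real.norm_eq_abs]
    calc ‖∑' i : ℕ, coeff (k + 1 + i) a * s0 ^ i‖ * ρ ^ k
        ≤ (∑' i : ℕ, (|coeff (k + 1 + i) a| * ρ ^ (k + 1 + i)) * (x ^ i * (ρ ^ (k + 1))⁻¹)) * ρ ^ k :=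
          mul_le_mul_of_nonneg_right h2 (by positivity)
      _ = ∑' i : ℕ, (|coeff (k + 1 + i) a| * ρ ^ (k + 1 + i)) * (x ^ i * ρ⁻¹) := by
          rw [← tsum_mul_right]
          refine tsum_congr fun i => ?_
          rw [pow_succ ρ k]
          field_simp
  have hsum2 : ∀ k, Summable (fun i : ℕ =>
      (|coeff (k + 1 + i) a| * ρ ^ (k + 1 + i)) * (x ^ i * ρ⁻¹)) := by
    intro k
    have h1 : Summable (fun i : ℕ => |coeff (i + (k + 1)) a| * ρ ^ (i + (k + 1))) :=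
      (summable_nat_add_iff (k + 1)).2 (ha.summable hρ.le)
    refine Summable.of_nonneg_of_le (fun i => by positivity) (fun i => ?_) (h1.mul_right ρ⁻¹)
    rw [show i + (k + 1) = k + 1 + i by ring]
    refine mul_le_mul_of_nonneg_left ?_ (by positivity)
    calc x ^ i * ρ⁻¹ ≤ 1 * ρ⁻¹ :=
          mul_le_mul_of_nonneg_right (pow_le_one₀ hx0 hx1.le) (by positivity)
      _ = _ := one_mul _
  calc ∑ k ∈ range K, |coeff k (TM.dd s0 a)| * ρ ^ k
      ≤ ∑ k ∈ range K, ∑' i : ℕ, (|coeff (k + 1 + i) a| * ρ ^ (k + 1 + i)) * (x ^ i * ρ⁻¹) :=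
        sum_le_sum fun k _ => h1 k
    _ = ∑' i : ℕ, ∑ k ∈ range K, (|coeff (k + 1 + i) a| * ρ ^ (k + 1 + i)) * (x ^ i * ρ⁻¹) := by
        rw [Summable.tsum_finsetSum (fun k _ => hsum2 k)]
    _ ≤ ∑' i : ℕ, M * (x ^ i * ρ⁻¹) := by
        refine Summable.tsum_le_tsum (fun i => ?_) ?_ ?_
        · rw [← sum_mul]
          refine mul_le_mul_of_nonneg_right ?_ (by positivity)
          have := ha (1 + i + K)
          rw [sum_range_add] at this
          have h0 : 0 ≤ ∑ k ∈ range (1 + i), |coeff k a| * ρ ^ k := sum_nonneg fun k _ => by positivity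
          calc ∑ k ∈ range K, |coeff (k + 1 + i) a| * ρ ^ (k + 1 + i)
              = ∑ k ∈ range K, |coeff (1 + i + k) a| * ρ ^ (1 + i + k) :=
                sum_congr rfl fun k _ => by rw [show k + 1 + i = 1 + i + k by ring]
            _ ≤ M := by linarith
        · exact summable_sum (fun k _ => hsum2 k)
        · exact ((summable_geometric_of_lt_one hx0 hx1).mul_right ρ⁻¹).mul_left M
    _ = M / (ρ - |s0|) := by
        rw [tsum_mul_left, tsum_mul_right, tsum_geometric_of_lt_one hx0 hx1, hx]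
        have : ρ - |s0| ≠ 0 := by linarith
        have h2 : 1 - |s0| / ρ = (ρ - |s0|) / ρ := by field_simp
        rw [h2]
        field_simp

theorem dd_spec {s0 : ℝ} (ha : Bd ρ a M) (hs : |s0| < ρ) :
    (C s0 - X) * dd s0 a = a - C (ev a s0) := by
  have hρ : 0 < ρ := (abs_nonneg s0).trans_lt hs
  ext k
  rw [sub_mul, map_sub, map_sub, coeff_C_mul]
  rcases k with _ | k
  · rw [coeff_zero_X_mul, coeff_dd]
    unfold ev
    rw [(ha.summable_ev hs.le).tsum_eq_zero_add]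
    simp only [coeff_zero_C, sub_zero, pow_zero, mul_one, mul_neg, Nat.zero_add]
    rw [← tsum_mul_left]
    have : ∀ i : ℕ, s0 * (coeff (1 + i) a * s0 ^ i) = coeff (i + 1) a * s0 ^ (i + 1) := fun i => by
      rw [show 1 + i = i + 1 by ring, pow_succ]; ring
    rw [tsum_congr this]
    ring
  · rw [coeff_succ_X_mul, coeff_dd, coeff_dd, coeff_C_of_ne_zero (Nat.succ_ne_zero k), sub_zero]
    have h1 := (dd_summable ha hs k).tsum_eq_zero_add
    rw [h1]
    simp only [add_zero, pow_zero, mul_one, mul_neg]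
    rw [← tsum_mul_left]
    have : ∀ i : ℕ, s0 * (coeff (k + 1 + 1 + i) a * s0 ^ i)
        = coeff (k + 1 + (i + 1)) a * s0 ^ (i + 1) := fun i => by
      rw [show k + 1 + 1 + i = k + 1 + (i + 1) by ring, pow_succ]; ring
    rw [tsum_congr this]
    ring

theorem C_sub_X_ne_zero (s0 : ℝ) : (C s0 - X : PowerSeries ℝ) ≠ 0 := by
  intro h
  have := congrArg (coeff 1) h
  simp at this

/-- Approximation of the divided difference. -/
theorem Bd.dd_sub {s0 : ℝ} {q : PowerSeries ℝ} {ε L : ℝ} (r : ℝ) (ha : Bd ρ a M) (hq : Bd ρ q L)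
    (hs : |s0| < ρ) (h : Bd ρ (a - C r - (C s0 - X) * q) ε) :
    Bd ρ (TM.dd s0 a - q) (ε / (ρ - |s0|)) := by
  have hρ : 0 < ρ := (abs_nonneg s0).trans_lt hs
  have h1 := dd_spec h hs
  have h2 := dd_spec ha hs
  have hcx : Bd ρ (C s0 - X * 1) (|s0| + ρ * |1|) :=
    (Bd.const s0).sub hρ.le (((map_one (C (R := ℝ))) ▸ Bd.const (ρ := ρ) (1:ℝ)).X_mul hρ.le)
  rw [mul_one] at hcx
  have e1 : ev (a - C r - (C s0 - X) * q) s0 = ev a s0 - r := by
    rw [ev_sub (ha.sub hρ.le (Bd.const r)) (hcx.mul hρ.le hq) hs.le, ev_sub ha (Bd.const r) hs.le, ev_C,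
      ev_mul hcx hq hs.le]
    have : ev (C s0 - X) s0 = 0 := by
      have := ev_sub (Bd.const (ρ := ρ) s0)
        ((((map_one (C (R := ℝ))) ▸ Bd.const (ρ := ρ) (1:ℝ)) : Bd ρ 1 |1|).X_mul hρ.le) hs.le
      rw [mul_one, ev_C] at this
      rw [this]
      have h4 := ev_X_mul ((((map_one (C (R := ℝ))) ▸ Bd.const (ρ := ρ) (1:ℝ)) : Bd ρ 1 |1|)) hs.le
      rw [mul_one, ev_one] at h4
      rw [h4]; ring
    rw [this]; ring
  rw [e1] at h1
  have e2 : (C s0 - X) * (TM.dd s0 a - q) = (C s0 - X) * TM.dd s0 (a - C r - (C s0 - X) * q) := by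
    rw [h1, mul_sub, h2, map_sub]; ring
  have e3 := mul_left_cancel₀ (C_sub_X_ne_zero s0) e2
  rw [e3]
  exact h.dd hs

end Pool.Agent.PPW.TM
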