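/-
MP_eb7570_an (helper61): Taylor models with rational coefficient lists.

`TM ρ a p ε`: the power series `a` is within `ε` (weighted l1 norm with radius `ρ`) of the
polynomial with coefficient list `p`.
All rules have a Boolean side condition which the kernel decides.
-/
import Pool.Agent.Lib.MP_eb7570_an.TM.Basic

set_option autoImplicit false

namespace Pool.Agent.PPW.TM

open PowerSeries Finset

/-- the polynomial with given coefficient list, as a real power series -/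
noncomputable def P : List ℚ → PowerSeries ℝ
  | [] => 0
  | c :: l => C (c : ℝ) + X * P l

/-- evaluation of a coefficient list (Horner) -/
def evL : List ℚ → ℝ → ℝ
  | [], _ => 0
  | c :: l, s => (c : ℝ) + s * evL l s

def addL : List ℚ → List ℚ → List ℚ
  | [], q => q
  | a :: p, [] => a :: p
  | a :: p, b :: q => (a + b) :: addL p q

def negL (p : List ℚ) : List ℚ := p.map (fun c => -c)

def subL (p q : List ℚ) : List ℚ := addL p (negL q)

def smulL (t : ℚ) (p : List ℚ) : List ℚ := p.map (fun c => t * c)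

def mulL : List ℚ → List ℚ → List ℚ
  | [], _ => []
  | a :: p, q => addL (smulL a q) (0 :: mulL p q)

/-- weighted l1 norm -/
def nrm (ρ : ℚ) : List ℚ → ℚ
  | [] => 0
  | c :: l => |c| + ρ * nrm ρ l

/-- derivative, with a counter -/
def derAux : ℕ → List ℚ → List ℚ
  | _, [] => []
  | n, c :: l => ((n : ℚ) * c) :: derAux (n + 1) l

def derL : List ℚ → List ℚ
  | [] => []
  | _ :: l => derAux 1 l

theorem P_addL (p q : List ℚ) : P (addL p q) = P p + P q := by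
  induction p generalizing q with
  | nil => simp [addL, P]
  | cons a p ih =>
    cases q with
    | nil => simp [addL, P]
    | cons b q =>
      simp only [addL, P, ih]
      push_cast
      rw [map_add]; ring

theorem P_negL (p : List ℚ) : P (negL p) = - P p := by
  induction p with
  | nil => simp [negL, P]
  | cons a p ih =>
    unfold negL at *
    simp only [List.map_cons, P, ih]
    push_cast
    rw [map_neg]; ring

theorem P_subL (p q : List ℚ) : P (subL p q) = P p - P q := by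
  unfold subL; rw [P_addL, P_negL, sub_eq_add_neg]

theorem P_smulL (t : ℚ) (p : List ℚ) : P (smulL t p) = C (t : ℝ) * P p := by
  induction p with
  | nil => simp [smulL, P]
  | cons a p ih =>
    unfold smulL at *
    simp only [List.map_cons, P, ih]
    push_cast
    rw [map_mul]; ring

theorem P_mulL (p q : List ℚ) : P (mulL p q) = P p * P q := by
  induction p with
  | nil => simp [mulL, P]
  | cons a p ih =>
    simp only [mulL, P_addL, P_smulL, P, ih]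
    simp only [Rat.cast_zero, map_zero]
    ring

theorem nrm_nonneg {ρ : ℚ} (hρ : 0 ≤ ρ) (p : List ℚ) : 0 ≤ nrm ρ p := by
  induction p with
  | nil => simp [nrm]
  | cons a p ih => unfold nrm; positivity

theorem Bd_P {ρ : ℚ} (hρ : 0 ≤ ρ) (p : List ℚ) : Bd (ρ : ℝ) (P p) ((nrm ρ p : ℚ) : ℝ) := by
  have hρ' : (0:ℝ) ≤ (ρ : ℝ) := by exact_mod_cast hρ
  induction p with
  | nil => simpa [P, nrm] using Bd.zero
  | cons a p ih =>
    unfold P nrm
    have := (Bd.const (ρ := (ρ : ℝ)) (a : ℝ)).add hρ' (ih.X_mul hρ')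
    push_cast
    exact this

theorem ev_P (p : List ℚ) (s : ℝ) : ev (P p) s = evL p s := by
  obtain ⟨ρ, hρ⟩ := exists_rat_gt |s|
  have hρ0 : (0:ℝ) < ρ := (abs_nonneg s).trans_lt hρ
  have hρq : (0:ℚ) ≤ ρ := by exact_mod_cast hρ0.le
  induction p with
  | nil => simp [P, evL, ev_zero]
  | cons a p ih =>
    unfold P evL
    rw [ev_add (Bd.const (ρ := (ρ : ℝ)) (a : ℝ)) ((Bd_P hρq p).X_mul hρ0.le) hρ.le, ev_C,
      ev_X_mul (Bd_P hρq p) hρ.le, ih]

theorem der_P_aux (n : ℕ) (p : List ℚ) :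
    P (derAux n p) = PowerSeries.mk (fun k => ((n : ℝ) + k) * coeff k (P p)) := by
  induction p generalizing n with
  | nil =>
    ext k; simp [derAux, P]
  | cons a p ih =>
    unfold derAux
    ext k
    rw [P, ih (n + 1), coeff_mk, P]
    rcases k with _ | k
    · simp
    · rw [map_add, map_add, coeff_succ_X_mul, coeff_succ_X_mul, coeff_mk,
        coeff_C_of_ne_zero (Nat.succ_ne_zero k), coeff_C_of_ne_zero (Nat.succ_ne_zero k)]
      push_cast; ring

theorem P_derL (p : List ℚ) : P (derL p) = der (P p) := by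
  cases p with
  | nil => ext k; simp [derL, P, coeff_der]
  | cons a p =>
    unfold derL
    rw [der_P_aux]
    ext k
    rw [coeff_mk, coeff_der, P, map_add, coeff_succ_X_mul, coeff_C_of_ne_zero (Nat.succ_ne_zero k)]
    push_cast; ring

/-- Taylor model. -/
def TM (ρ : ℚ) (a : PowerSeries ℝ) (p : List ℚ) (ε : ℚ) : Prop :=
  Bd (ρ : ℝ) (a - P p) (ε : ℝ)

variable {ρ ρ' : ℚ} {a b c : PowerSeries ℝ} {p q r : List ℚ} {ε δ η : ℚ}

theorem TM.bd (hρ : 0 ≤ ρ) (h : TM ρ a p ε) : Bd (ρ : ℝ) a ((nrm ρ p + ε : ℚ) : ℝ) := by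
  have hρ' : (0:ℝ) ≤ (ρ : ℝ) := by exact_mod_cast hρ
  have h1 := (Bd_P hρ p).add hρ' h
  rw [show P p + (a - P p) = a by ring] at h1
  push_cast
  exact h1

theorem TM.eps_nonneg (h : TM ρ a p ε) : 0 ≤ ε := by
  have := Bd.nonneg h
  exact_mod_cast this

theorem TM.self (hρ : 0 ≤ ρ) (p : List ℚ) : TM ρ (P p) p 0 := by
  unfold TM
  rw [sub_self]
  simpa using Bd.zero

/-- rounding -/
theorem TM.round (h : TM ρ a p ε) (hρ : 0 ≤ ρ) (hc : nrm ρ (subL p q) + ε ≤ η) : TM ρ a q η := by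
  have hρ' : (0:ℝ) ≤ (ρ : ℝ) := by exact_mod_cast hρ
  have h1 := (Bd_P hρ (subL p q)).add hρ' h
  rw [P_subL, show P p - P q + (a - P p) = a - P q by ring] at h1
  exact h1.mono (by exact_mod_cast hc)

theorem TM.neg (h : TM ρ a p ε) : TM ρ (-a) (negL p) ε := by
  unfold TM at *
  rw [P_negL, show -a - -P p = -(a - P p) by ring]
  exact Bd.neg h

theorem TM.add' (hρ : 0 ≤ ρ) (ha : TM ρ a p ε) (hb : TM ρ b q δ) : TM ρ (a + b) (addL p q) (ε + δ) := by
  have hρ' : (0:ℝ) ≤ (ρ : ℝ) := by exact_mod_cast hρ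
  unfold TM at *
  rw [P_addL, show a + b - (P p + P q) = (a - P p) + (b - P q) by ring]
  push_cast
  exact Bd.add hρ' ha hb

theorem TM.sub' (hρ : 0 ≤ ρ) (ha : TM ρ a p ε) (hb : TM ρ b q δ) : TM ρ (a - b) (subL p q) (ε + δ) := by
  have := ha.add' hρ hb.neg
  rw [← sub_eq_add_neg] at this
  exact this

theorem TM.mul' (hρ : 0 ≤ ρ) (ha : TM ρ a p ε) (hb : TM ρ b q δ) :
    TM ρ (a * b) (mulL p q) (ε * (nrm ρ q + δ) + nrm ρ p * δ) := by
  have hρ' : (0:ℝ) ≤ (ρ : ℝ) := by exact_mod_cast hρ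
  have h1 := Bd.mul hρ' ha (hb.bd hρ)
  have h2 := Bd.mul hρ' (Bd_P hρ p) hb
  unfold TM
  rw [P_mulL, show a * b - P p * P q = (a - P p) * b + P p * (b - P q) by ring]
  push_cast at *
  exact h1.add hρ' h2

theorem TM.X_mul' (hρ : 0 ≤ ρ) (ha : TM ρ a p ε) : TM ρ (X * a) (0 :: p) (ρ * ε) := by
  have hρ' : (0:ℝ) ≤ (ρ : ℝ) := by exact_mod_cast hρ
  have h1 := Bd.X_mul hρ' ha
  unfold TM
  rw [P, show X * a - (C ((0:ℚ):ℝ) + X * P p) = X * (a - P p) by simp; ring]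
  push_cast
  exact h1

/-- multiplication by a real constant `t` with `|t - th| ≤ τ` -/
theorem TM.cmul' (hρ : 0 ≤ ρ) {t : ℝ} {th τ : ℚ} (ht : |t - th| ≤ τ) (ha : TM ρ a p ε) :
    TM ρ (C t * a) (smulL th p) (τ * (nrm ρ p + ε) + |th| * ε) := by
  have hρ' : (0:ℝ) ≤ (ρ : ℝ) := by exact_mod_cast hρ
  have h1 := (ha.bd hρ).C_mul (t - th)
  have h2 := Bd.C_mul (th : ℝ) ha
  have h3 : Bd (ρ : ℝ) (C (t - th) * a) ((τ * (nrm ρ p + ε) : ℚ) : ℝ) := by
    refine h1.mono ?_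
    push_cast
    have := (ha.bd hρ).nonneg
    push_cast at this
    exact mul_le_mul_of_nonneg_right ht this
  unfold TM
  rw [P_smulL, show C t * a - C (th : ℝ) * P p = C (t - th) * a + C (th : ℝ) * (a - P p) by
    rw [map_sub]; ring]
  push_cast at *
  exact h3.add hρ' h2

theorem TM.const' {t : ℝ} {th τ : ℚ} (ht : |t - th| ≤ τ) : TM ρ (C t) [th] τ := by
  unfold TM
  rw [P, P, show C t - (C (th : ℝ) + X * 0) = C (t - th) by rw [map_sub]; ring]
  exact (Bd.const _).mono ht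

/-- derivative, smaller radius -/
theorem TM.der' (hρ' : 0 ≤ ρ') (h : ρ' < ρ) (ha : TM ρ a p ε) :
    TM ρ' (der a) (derL p) (ε / (ρ - ρ')) := by
  have h1 : (0:ℝ) ≤ (ρ' : ℝ) := by exact_mod_cast hρ'
  have h2 : (ρ' : ℝ) < (ρ : ℝ) := by exact_mod_cast h
  have h3 := Bd.der h1 h2 ha
  unfold TM
  rw [P_derL, ← der_sub]
  push_cast
  exact h3

/-! ### rules with a Boolean check -/

def ckAdd (ρ : ℚ) (p : List ℚ) (ε : ℚ) (q : List ℚ) (δ : ℚ) (r : List ℚ) (η : ℚ) : Bool :=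
  decide (0 ≤ ρ) && decide (nrm ρ (subL (addL p q) r) + (ε + δ) ≤ η)

theorem TM.add (ha : TM ρ a p ε) (hb : TM ρ b q δ) (h : ckAdd ρ p ε q δ r η = true) :
    TM ρ (a + b) r η := by
  unfold ckAdd at h
  rw [Bool.and_eq_true, decide_eq_true_iff, decide_eq_true_iff] at h
  exact (ha.add' h.1 hb).round h.1 h.2

def ckSub (ρ : ℚ) (p : List ℚ) (ε : ℚ) (q : List ℚ) (δ : ℚ) (r : List ℚ) (η : ℚ) : Bool :=
  decide (0 ≤ ρ) && decide (nrm ρ (subL (subL p q) r) + (ε + δ) ≤ η)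

theorem TM.sub (ha : TM ρ a p ε) (hb : TM ρ b q δ) (h : ckSub ρ p ε q δ r η = true) :
    TM ρ (a - b) r η := by
  unfold ckSub at h
  rw [Bool.and_eq_true, decide_eq_true_iff, decide_eq_true_iff] at h
  exact (ha.sub' h.1 hb).round h.1 h.2

def ckMul (ρ : ℚ) (p : List ℚ) (ε : ℚ) (q : List ℚ) (δ : ℚ) (r : List ℚ) (η : ℚ) : Bool :=
  decide (0 ≤ ρ) &&
    decide (nrm ρ (subL (mulL p q) r) + (ε * (nrm ρ q + δ) + nrm ρ p * δ) ≤ η)

theorem TM.mul (ha : TM ρ a p ε) (hb : TM ρ b q δ) (h : ckMul ρ p ε q δ r η = true) :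
    TM ρ (a * b) r η := by
  unfold ckMul at h
  rw [Bool.and_eq_true, decide_eq_true_iff, decide_eq_true_iff] at h
  exact (ha.mul' h.1 hb).round h.1 h.2

def ckX (ρ : ℚ) (p : List ℚ) (ε : ℚ) (r : List ℚ) (η : ℚ) : Bool :=
  decide (0 ≤ ρ) && decide (nrm ρ (subL (0 :: p) r) + ρ * ε ≤ η)

theorem TM.X_mul (ha : TM ρ a p ε) (h : ckX ρ p ε r η = true) : TM ρ (X * a) r η := by
  unfold ckX at h
  rw [Bool.and_eq_true, decide_eq_true_iff, decide_eq_true_iff] at h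
  exact (ha.X_mul' h.1).round h.1 h.2

def ckC (ρ th τ : ℚ) (p : List ℚ) (ε : ℚ) (r : List ℚ) (η : ℚ) : Bool :=
  decide (0 ≤ ρ) && decide (nrm ρ (subL (smulL th p) r) + (τ * (nrm ρ p + ε) + |th| * ε) ≤ η)

theorem TM.cmul {t : ℝ} {th τ : ℚ} (ht : |t - th| ≤ τ) (ha : TM ρ a p ε)
    (h : ckC ρ th τ p ε r η = true) : TM ρ (C t * a) r η := by
  unfold ckC at h
  rw [Bool.and_eq_true, decide_eq_true_iff, decide_eq_true_iff] at h
  exact (ha.cmul' h.1 ht).round h.1 h.2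

def ckDer (ρ ρ' : ℚ) (p : List ℚ) (ε : ℚ) (r : List ℚ) (η : ℚ) : Bool :=
  decide (0 ≤ ρ') && (decide (ρ' < ρ) &&
    decide (nrm ρ' (subL (derL p) r) + ε / (ρ - ρ') ≤ η))

theorem TM.der (ha : TM ρ a p ε) (h : ckDer ρ ρ' p ε r η = true) : TM ρ' (der a) r η := by
  unfold ckDer at h
  rw [Bool.and_eq_true, Bool.and_eq_true, decide_eq_true_iff, decide_eq_true_iff,
    decide_eq_true_iff] at h
  exact (ha.der' h.1 h.2.1).round h.1 h.2.2

/-- inverse: `δ := ‖1 - p r‖ + ε ‖r‖ < 1`, error `δ ‖r‖/(1-δ)` -/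
def ckInv (ρ : ℚ) (p : List ℚ) (ε : ℚ) (r : List ℚ) (η : ℚ) : Bool :=
  decide (0 ≤ ρ) &&
    (decide (nrm ρ (subL [1] (mulL p r)) + ε * nrm ρ r < 1) &&
      decide ((nrm ρ (subL [1] (mulL p r)) + ε * nrm ρ r) *
        (nrm ρ r / (1 - (nrm ρ (subL [1] (mulL p r)) + ε * nrm ρ r))) ≤ η))

theorem TM.inv (ha : TM ρ a p ε) (hac : a * c = 1) (h : ckInv ρ p ε r η = true) : TM ρ c r η := by
  unfold ckInv at h
  rw [Bool.and_eq_true, Bool.and_eq_true, decide_eq_true_iff, decide_eq_true_iff,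
    decide_eq_true_iff] at h
  obtain ⟨h0, h1, h2⟩ := h
  have hρ' : (0:ℝ) ≤ (ρ : ℝ) := by exact_mod_cast h0
  set d : ℚ := nrm ρ (subL [1] (mulL p r)) + ε * nrm ρ r with hd
  have hu : Bd (ρ : ℝ) (1 - a * P r) (d : ℝ) := by
    have e1 := Bd_P h0 (subL [1] (mulL p r))
    have e2 := Bd.mul hρ' ha (Bd_P h0 r)
    have e3 := e1.sub hρ' e2
    rw [P_subL, P_mulL, show P [1] - P p * P r - (a - P p) * P r = 1 - a * P r by
      unfold P; unfold P; simp; ring] at e3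
    rw [hd]; push_cast; exact e3
  have h3 := Bd.inv hρ' hac hu (by exact_mod_cast h1) (Bd_P h0 r)
  refine h3.mono ?_
  exact_mod_cast h2

/-- divided difference at `s0`, `|s0 - sh| ≤ τ`; `cst` is the constant remainder -/
def ckDD (ρ sh τ cst : ℚ) (p : List ℚ) (ε : ℚ) (r : List ℚ) (η : ℚ) : Bool :=
  decide (0 ≤ sh) && (decide (0 ≤ τ) && (decide (sh + τ < ρ) &&
    decide ((nrm ρ (subL (subL p [cst]) (mulL [sh, -1] r)) + (ε + τ * nrm ρ r)) / (ρ - sh - τ) ≤ η)))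

theorem TM.dd {s0 : ℝ} {sh τ cst : ℚ} (hs : |s0 - sh| ≤ τ) (ha : TM ρ a p ε)
    (h : ckDD ρ sh τ cst p ε r η = true) : TM ρ (TM.dd s0 a) r η := by
  unfold ckDD at h
  rw [Bool.and_eq_true, Bool.and_eq_true, Bool.and_eq_true, decide_eq_true_iff, decide_eq_true_iff,
    decide_eq_true_iff, decide_eq_true_iff] at h
  obtain ⟨h0, h1, h2, h3⟩ := h
  have hρq : 0 ≤ ρ := by linarith
  have hρ' : (0:ℝ) ≤ (ρ : ℝ) := by exact_mod_cast hρq
  have hsh : (0:ℝ) ≤ (sh : ℝ) := by exact_mod_cast h0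
  have h2' : (sh : ℝ) + (τ : ℝ) < (ρ : ℝ) := by exact_mod_cast h2
  have habs : |s0| ≤ (sh : ℝ) + τ := by
    have e : s0 = (s0 - sh) + sh := by ring
    rw [e]
    refine (abs_add_le _ _).trans ?_
    rw [abs_of_nonneg hsh]; linarith
  have hlt : |s0| < (ρ : ℝ) := habs.trans_lt h2'
  have e1 := Bd_P hρq (subL (subL p [cst]) (mulL [sh, -1] r))
  have e2 := (Bd_P hρq r).C_mul (s0 - sh)
  have e3 := (e1.add hρ' ha).sub hρ' e2
  have e4 : P (subL (subL p [cst]) (mulL [sh, -1] r)) + (a - P p) - C (s0 - (sh:ℝ)) * P r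
      = a - C (cst : ℝ) - (C s0 - X) * P r := by
    rw [P_subL, P_subL, P_mulL]
    have : P [sh, -1] = C (sh : ℝ) - X := by unfold P; unfold P; unfold P; simp; ring
    have h' : P [cst] = C (cst : ℝ) := by unfold P; unfold P; simp
    rw [this, h', map_sub]; ring
  rw [e4] at e3
  have e5 := Bd.dd_sub (cst : ℝ) (ha.bd hρq) (Bd_P hρq r) hlt e3
  refine Bd.mono e5 ?_
  refine le_trans ?_ (show (((nrm ρ (subL (subL p [cst]) (mulL [sh, -1] r)) + (ε + τ * nrm ρ r))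
    / (ρ - sh - τ) : ℚ) : ℝ) ≤ (η : ℝ) by exact_mod_cast h3)
  push_cast
  have hnr : (0:ℝ) ≤ ((nrm ρ r : ℚ) : ℝ) := by exact_mod_cast nrm_nonneg hρq r
  have hn2 : (0:ℝ) ≤ ((nrm ρ (subL (subL p [cst]) (mulL [sh, -1] r)) : ℚ) : ℝ) := by
    exact_mod_cast nrm_nonneg hρq _
  have hε : (0:ℝ) ≤ (ε : ℝ) := by exact_mod_cast ha.eps_nonneg
  have hτ : (0:ℝ) ≤ (τ : ℝ) := by exact_mod_cast h1
  apply div_le_div₀
  · positivity
  · have := mul_le_mul_of_nonneg_right hs hnr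
    linarith
  · linarith
  · linarith

/-- value bound -/
theorem TM.abs_ev_sub_le (ha : TM ρ a p ε) (hρ : 0 ≤ ρ) {s : ℝ} (hs : |s| ≤ ρ) :
    |ev a s - evL p s| ≤ ε := by
  have h := Bd.abs_ev_le ha hs
  rw [ev_sub (ha.bd hρ) (Bd_P hρ p) hs, ev_P] at h
  exact h

end Pool.Agent.PPW.TM
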