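/-
MP_eb7570_an (helper61): the power series `Fs n lam` of `s ↦ F n (lam s)` and its Taylor models.
-/
import Pool.Agent.Lib.MP_eb7570_an.TM.Poly
import Pool.Agent.Lib.MP_eb7570_an.Bes.Zeros

set_option autoImplicit false
set_option linter.dupNamespace false

namespace Pool.Agent.PPW.TM

open PowerSeries Finset
open scoped Nat
open Pool.Agent.PPW.Bes (F trm)

/-- power series of `s ↦ F n (lam s)` -/
noncomputable def Fs (n : ℕ) (lam : ℝ) : PowerSeries ℝ :=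
  PowerSeries.mk fun k => (-lam) ^ k / ((k ! : ℝ) * ((k + n)! : ℝ))

theorem coeff_Fs (n : ℕ) (lam : ℝ) (k : ℕ) :
    coeff k (Fs n lam) = (-lam) ^ k / ((k ! : ℝ) * ((k + n)! : ℝ)) := by
  unfold Fs; rw [coeff_mk]

theorem abs_coeff_Fs_le (n : ℕ) (lam : ℝ) (k : ℕ) :
    |coeff k (Fs n lam)| ≤ |lam| ^ k / (k ! : ℝ) := by
  rw [coeff_Fs, abs_div, abs_pow, abs_neg]
  have h1 : (0:ℝ) < (k ! : ℝ) := by exact_mod_cast Nat.factorial_pos k
  have h2 : (1:ℝ) ≤ ((k + n)! : ℝ) := by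
    exact_mod_cast Nat.one_le_iff_ne_zero.2 (Nat.factorial_ne_zero _)
  rw [abs_of_pos (by positivity : (0:ℝ) < (k ! : ℝ) * ((k + n)! : ℝ))]
  apply div_le_div_of_nonneg_left (by positivity) h1
  nlinarith

theorem Bd_Fs {ρ : ℝ} (hρ : 0 ≤ ρ) (n : ℕ) (lam : ℝ) : Bd ρ (Fs n lam) (Real.exp (|lam| * ρ)) := by
  intro K
  have h1 : ∑ k ∈ range K, |coeff k (Fs n lam)| * ρ ^ k
      ≤ ∑ k ∈ range K, (|lam| * ρ) ^ k / (k ! : ℝ) := by
    refine sum_le_sum fun k _ => ?_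
    calc |coeff k (Fs n lam)| * ρ ^ k ≤ |lam| ^ k / (k ! : ℝ) * ρ ^ k :=
          mul_le_mul_of_nonneg_right (abs_coeff_Fs_le n lam k) (by positivity)
      _ = (|lam| * ρ) ^ k / (k ! : ℝ) := by rw [mul_pow]; ring
  exact h1.trans (Real.sum_le_exp_of_nonneg (by positivity) K)

theorem ev_Fs (n : ℕ) (lam s : ℝ) : ev (Fs n lam) s = F n (lam * s) := by
  unfold ev F
  refine tsum_congr fun k => ?_
  rw [coeff_Fs]
  unfold trm
  rw [show -(lam * s) = (-lam) * s by ring, mul_pow]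
  ring

theorem der_Fs (n : ℕ) (lam : ℝ) : der (Fs n lam) = C (-lam) * Fs (n + 1) lam := by
  ext k
  rw [coeff_der, coeff_C_mul, coeff_Fs, coeff_Fs]
  have e1 : ((k + 1)! : ℝ) = ((k : ℝ) + 1) * (k ! : ℝ) := by
    rw [Nat.factorial_succ]; push_cast; ring
  have e2 : k + (n + 1) = k + 1 + n := by ring
  rw [e2, e1]
  have hk : ((k : ℝ) + 1) ≠ 0 := by positivity
  have hk' : (k ! : ℝ) ≠ 0 := by exact_mod_cast Nat.factorial_ne_zero k
  have hk'' : ((k + 1 + n)! : ℝ) ≠ 0 := by exact_mod_cast Nat.factorial_ne_zero _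
  field_simp
  ring

theorem Fs_rec (n : ℕ) (lam : ℝ) :
    Fs n lam = C ((n : ℝ) + 1) * Fs (n + 1) lam - C lam * (X * Fs (n + 2) lam) := by
  ext k
  rw [map_sub, coeff_C_mul, coeff_C_mul]
  rcases k with _ | k
  · rw [coeff_zero_X_mul, coeff_Fs, coeff_Fs]
    simp only [pow_zero, Nat.factorial_zero, Nat.cast_one, one_mul, Nat.zero_add, mul_zero, sub_zero]
    rw [Nat.factorial_succ]
    have h2 : (n ! : ℝ) ≠ 0 := by exact_mod_cast Nat.factorial_ne_zero n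
    have h3 : ((n : ℝ) + 1) ≠ 0 := by positivity
    push_cast
    field_simp
  · rw [coeff_succ_X_mul, coeff_Fs, coeff_Fs, coeff_Fs]
    have e1 : ((k + 1)! : ℝ) = ((k + 1 : ℕ) : ℝ) * (k ! : ℝ) := by
      rw [Nat.factorial_succ]; push_cast; ring
    have e2 : ((k + 1 + (n + 1))! : ℝ) = ((k + 1 + (n + 1) : ℕ) : ℝ) * ((k + 1 + n)! : ℝ) := by
      rw [show k + 1 + (n + 1) = (k + 1 + n) + 1 by ring, Nat.factorial_succ]; push_cast; ring
    have e3 : ((k + (n + 2))! : ℝ) = ((k + 1 + (n + 1) : ℕ) : ℝ) * ((k + 1 + n)! : ℝ) := by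
      rw [show k + (n + 2) = (k + 1 + n) + 1 by ring, Nat.factorial_succ]; push_cast; ring
    rw [e1, e2, e3]
    have hk : ((k + 1 : ℕ) : ℝ) ≠ 0 := by positivity
    have hk' : (k ! : ℝ) ≠ 0 := by exact_mod_cast Nat.factorial_ne_zero k
    have hk'' : ((k + 1 + n)! : ℝ) ≠ 0 := by exact_mod_cast Nat.factorial_ne_zero _
    have hk3 : ((k + 1 + (n + 1) : ℕ) : ℝ) ≠ 0 := by positivity
    push_cast at *
    field_simp
    ring

/-! ### Taylor models of `Fs` -/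

/-- coefficient of a list polynomial -/
theorem coeff_P (l : List ℚ) (k : ℕ) : coeff k (P l) = ((l.getD k 0 : ℚ) : ℝ) := by
  induction l generalizing k with
  | nil => simp [P]
  | cons a l ih =>
    rw [P]
    rcases k with _ | k
    · simp
    · rw [map_add, coeff_succ_X_mul, coeff_C_of_ne_zero (Nat.succ_ne_zero k), ih]
      simp

/-- rational coefficients; `fAux n q k m` lists the coefficients `k, k+1, ..., k+m-1`
starting from the current term `t` -/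
def fAux (n : ℕ) (q : ℚ) : ℕ → ℚ → ℕ → List ℚ
  | _, _, 0 => []
  | k, t, m + 1 => t :: fAux n q (k + 1) (t * ((-q) / (((k : ℚ) + 1) * (k + 1 + n)))) m

def fL (n : ℕ) (q : ℚ) (K : ℕ) : List ℚ := fAux n q 0 (1 / (n ! : ℚ)) K

theorem fAux_getD (n : ℕ) (q : ℚ) (m : ℕ) : ∀ (k : ℕ) (t : ℚ),
    ((t : ℚ) : ℝ) = (-(q : ℝ)) ^ k / ((k ! : ℝ) * ((k + n)! : ℝ)) →
    ∀ j, j < m → (((fAux n q k t m).getD j 0 : ℚ) : ℝ)
      = (-(q : ℝ)) ^ (k + j) / (((k + j)! : ℝ) * ((k + j + n)! : ℝ)) := by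
  induction m with
  | zero => intro k t _ j hj; omega
  | succ m ih =>
    intro k t ht j hj
    unfold fAux
    rcases j with _ | j
    · simpa using ht
    · rw [List.getD_cons_succ]
      rw [ih (k + 1) _ ?_ j (by omega)]
      · rw [show k + 1 + j = k + (j + 1) by ring]
      · have := Pool.Agent.PPW.Bes.trm_ratio n (q : ℝ) k
        unfold trm at this
        rw [this]
        push_cast
        rw [ht]

theorem fAux_getD_of_le (n : ℕ) (q : ℚ) (m : ℕ) : ∀ (k : ℕ) (t : ℚ) (j : ℕ), m ≤ j →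
    (fAux n q k t m).getD j 0 = 0 := by
  induction m with
  | zero => intro k t j _; unfold fAux; simp
  | succ m ih =>
    intro k t j hj
    unfold fAux
    rcases j with _ | j
    · omega
    · rw [List.getD_cons_succ]
      exact ih _ _ j (by omega)

theorem coeff_P_fL (n : ℕ) (q : ℚ) (K : ℕ) (k : ℕ) :
    coeff k (P (fL n q K)) = if k < K then coeff k (Fs n (q : ℝ)) else 0 := by
  rw [coeff_P]
  unfold fL
  split_ifs with h
  · rw [fAux_getD n q K 0 _ ?_ k h, coeff_Fs]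
    · simp
    · simp
  · rw [fAux_getD_of_le n q K _ _ k (by omega)]
    simp

/-- tail estimate -/
theorem Bd_tail (n K : ℕ) (q ρ : ℚ) (hq : 0 ≤ q) (hρ : 0 ≤ ρ)
    (h : 2 * (q * ρ) ≤ ((K : ℚ) + 1) * (K + 1 + n)) :
    Bd (ρ : ℝ) (Fs n (q : ℝ) - P (fL n q K))
      ((2 * ((q * ρ) ^ K / ((K ! : ℚ) * ((K + n)! : ℚ))) : ℚ) : ℝ) := by
  have hq' : (0:ℝ) ≤ (q : ℝ) := by exact_mod_cast hq
  have hρ' : (0:ℝ) ≤ (ρ : ℝ) := by exact_mod_cast hρ
  have h' : 2 * ((q : ℝ) * ρ) ≤ ((K : ℝ) + 1) * (K + 1 + n) := by exact_mod_cast h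
  set c : ℝ := ((q : ℝ) * ρ) ^ K / ((K ! : ℝ) * ((K + n)! : ℝ)) with hc
  have hc0 : 0 ≤ c := by positivity
  have key : ∀ j : ℕ, |coeff (K + j) (Fs n (q : ℝ))| * (ρ : ℝ) ^ (K + j) ≤ c * (1 / 2) ^ j := by
    intro j
    induction j with
    | zero =>
      rw [coeff_Fs, abs_div, abs_pow, abs_neg, abs_of_nonneg hq',
        abs_of_pos (by positivity : (0:ℝ) < (((K + 0)! : ℕ) : ℝ) * (((K + 0 + n)! : ℕ) : ℝ)), hc, mul_pow]
      simp only [Nat.add_zero, pow_zero, mul_one]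
      exact le_of_eq (by ring)
    | succ j ih =>
      have e := Pool.Agent.PPW.Bes.trm_ratio n (q : ℝ) (K + j)
      unfold trm at e
      rw [coeff_Fs] at ih ⊢
      rw [show K + (j + 1) = K + j + 1 by ring, e, abs_mul, pow_succ (ρ : ℝ), pow_succ (1 / 2 : ℝ)]
      have e2 : |(-(q : ℝ)) / ((((K + j : ℕ) : ℝ) + 1) * (((K + j : ℕ) : ℝ) + 1 + n))| * ρ ≤ 1 / 2 := by
        rw [abs_div, abs_neg, abs_of_nonneg hq', abs_of_pos (by positivity :
          (0:ℝ) < (((K + j : ℕ) : ℝ) + 1) * (((K + j : ℕ) : ℝ) + 1 + n)), div_mul_eq_mul_div,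
          div_le_iff₀ (by positivity)]
        have hj : (0:ℝ) ≤ (j : ℝ) := by positivity
        have hK : (0:ℝ) ≤ (K : ℝ) := by positivity
        have hn : (0:ℝ) ≤ (n : ℝ) := by positivity
        push_cast
        nlinarith [mul_nonneg hj hj, mul_nonneg hj hK, mul_nonneg hj hn]
      calc |(-(q : ℝ)) ^ (K + j) / (((K + j)! : ℝ) * ((K + j + n)! : ℝ))|
            * |(-(q : ℝ)) / ((((K + j : ℕ) : ℝ) + 1) * (((K + j : ℕ) : ℝ) + 1 + n))|
            * ((ρ : ℝ) ^ (K + j) * ρ)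
          = (|(-(q : ℝ)) ^ (K + j) / (((K + j)! : ℝ) * ((K + j + n)! : ℝ))| * (ρ : ℝ) ^ (K + j))
            * (|(-(q : ℝ)) / ((((K + j : ℕ) : ℝ) + 1) * (((K + j : ℕ) : ℝ) + 1 + n))| * ρ) := by ring
        _ ≤ (c * (1 / 2) ^ j) * (1 / 2) := mul_le_mul ih e2 (by positivity) (by positivity)
        _ = c * ((1 / 2) ^ j * (1 / 2)) := by ring
  intro N
  have h1 : ∑ k ∈ range N, |coeff k (Fs n (q : ℝ) - P (fL n q K))| * (ρ : ℝ) ^ k
      ≤ ∑ k ∈ range (K + N), |coeff k (Fs n (q : ℝ) - P (fL n q K))| * (ρ : ℝ) ^ k :=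
    sum_le_sum_of_subset_of_nonneg (by
      intro x hx; rw [mem_range] at *; omega) (fun k _ _ => by positivity)
  refine h1.trans ?_
  rw [sum_range_add]
  have h2 : ∑ k ∈ range K, |coeff k (Fs n (q : ℝ) - P (fL n q K))| * (ρ : ℝ) ^ k = 0 := by
    refine sum_eq_zero fun k hk => ?_
    rw [mem_range] at hk
    rw [map_sub, coeff_P_fL, if_pos hk]
    simp
  rw [h2, zero_add]
  calc ∑ j ∈ range N, |coeff (K + j) (Fs n (q : ℝ) - P (fL n q K))| * (ρ : ℝ) ^ (K + j)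
      ≤ ∑ j ∈ range N, c * (1 / 2) ^ j := by
        refine sum_le_sum fun j _ => ?_
        rw [map_sub, coeff_P_fL, if_neg (by omega), sub_zero]
        exact key j
    _ ≤ c * 2 := by
        rw [← mul_sum]
        refine mul_le_mul_of_nonneg_left ?_ hc0
        have := Summable.sum_le_tsum (range N) (fun j _ => by positivity)
          (summable_geometric_of_lt_one (by norm_num : (0:ℝ) ≤ 1 / 2) (by norm_num))
        rw [tsum_geometric_of_lt_one (by norm_num) (by norm_num)] at this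
        norm_num at this ⊢
        exact this
    _ = _ := by rw [hc]; push_cast; ring

/-- change of the parameter -/
theorem Bd_par {ρ lam lh M τ : ℝ} (hρ : 0 ≤ ρ) (hM : 0 ≤ M) (h1 : |lam| ≤ M) (h2 : |lh| ≤ M)
    (h3 : |lam - lh| ≤ τ) (n : ℕ) :
    Bd ρ (Fs n lam - Fs n lh) (τ * (ρ * Real.exp (M * ρ))) := by
  have hτ : 0 ≤ τ := (abs_nonneg _).trans h3
  have hpow : ∀ k : ℕ, |(-lam) ^ (k + 1) - (-lh) ^ (k + 1)| ≤ ((k : ℝ) + 1) * M ^ k * τ := by
    intro k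
    induction k with
    | zero =>
      simp only [zero_add, pow_one, Nat.cast_zero, pow_zero, one_mul, mul_one]
      rw [show -lam - -lh = -(lam - lh) by ring, abs_neg]; exact h3
    | succ k ih =>
      have e : (-lam) ^ (k + 1 + 1) - (-lh) ^ (k + 1 + 1)
          = ((-lam) ^ (k + 1) - (-lh) ^ (k + 1)) * (-lam) + (-lh) ^ (k + 1) * (-(lam - lh)) := by
        ring
      rw [e]
      refine (abs_add_le _ _).trans ?_
      rw [abs_mul, abs_mul, abs_neg, abs_neg, abs_pow, abs_neg]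
      have a1 : |(-lam) ^ (k + 1) - (-lh) ^ (k + 1)| * |lam| ≤ (((k : ℝ) + 1) * M ^ k * τ) * M :=
        mul_le_mul ih h1 (abs_nonneg _) (by positivity)
      have a2 : |lh| ^ (k + 1) * |lam - lh| ≤ M ^ (k + 1) * τ :=
        mul_le_mul (pow_le_pow_left₀ (abs_nonneg _) h2 _) h3 (abs_nonneg _) (by positivity)
      calc _ ≤ (((k : ℝ) + 1) * M ^ k * τ) * M + M ^ (k + 1) * τ := add_le_add a1 a2
        _ = (((k + 1 : ℕ) : ℝ) + 1) * M ^ (k + 1) * τ := by push_cast; ring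
  intro N
  rcases N with _ | N
  · simp only [range_zero, sum_empty]; positivity
  rw [sum_range_succ']
  have h0 : |coeff 0 (Fs n lam - Fs n lh)| * ρ ^ 0 = 0 := by
    rw [map_sub, coeff_Fs, coeff_Fs]; simp
  rw [h0, add_zero]
  calc ∑ k ∈ range N, |coeff (k + 1) (Fs n lam - Fs n lh)| * ρ ^ (k + 1)
      ≤ ∑ k ∈ range N, τ * (ρ * ((M * ρ) ^ k / (k ! : ℝ))) := by
        refine sum_le_sum fun k _ => ?_
        rw [map_sub, coeff_Fs, coeff_Fs, ← sub_div, abs_div,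
          abs_of_pos (by positivity : (0:ℝ) < ((k + 1)! : ℝ) * ((k + 1 + n)! : ℝ))]
        have e1 : ((k + 1)! : ℝ) = ((k : ℝ) + 1) * (k ! : ℝ) := by
          rw [Nat.factorial_succ]; push_cast; ring
        have e2 : (1:ℝ) ≤ ((k + 1 + n)! : ℝ) := by
          exact_mod_cast Nat.one_le_iff_ne_zero.2 (Nat.factorial_ne_zero _)
        have e3 : (0:ℝ) < (k ! : ℝ) := by exact_mod_cast Nat.factorial_pos k
        calc |(-lam) ^ (k + 1) - (-lh) ^ (k + 1)| / (((k + 1)! : ℝ) * ((k + 1 + n)! : ℝ)) * ρ ^ (k + 1)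
            ≤ (((k : ℝ) + 1) * M ^ k * τ) / (((k + 1)! : ℝ) * 1) * ρ ^ (k + 1) := by
              refine mul_le_mul_of_nonneg_right ?_ (by positivity)
              refine div_le_div₀ (by positivity) (hpow k) (by positivity) ?_
              exact mul_le_mul_of_nonneg_left e2 (by positivity)
          _ = τ * (ρ * ((M * ρ) ^ k / (k ! : ℝ))) := by
              rw [e1, mul_pow, pow_succ]
              have : ((k : ℝ) + 1) ≠ 0 := by positivity
              field_simp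
    _ = τ * (ρ * ∑ k ∈ range N, (M * ρ) ^ k / (k ! : ℝ)) := by rw [mul_sum, mul_sum]
    _ ≤ τ * (ρ * Real.exp (M * ρ)) := by
        have := Real.sum_le_exp_of_nonneg (by positivity : 0 ≤ M * ρ) N
        gcongr

/-- check for the Taylor model of `Fs n lam`, `|lam - q| ≤ τ`, `(q + τ) ρ ≤ m`, `m` natural -/
def ckF (n : ℕ) (q τ ρ : ℚ) (K m : ℕ) (r : List ℚ) (η : ℚ) : Bool :=
  decide (0 ≤ q) && (decide (0 ≤ ρ) && (decide (0 ≤ τ) && (decide ((q + τ) * ρ ≤ (m : ℚ)) &&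
    (decide (2 * (q * ρ) ≤ ((K : ℚ) + 1) * (K + 1 + n)) &&
      decide (nrm ρ (subL (fL n q K) r) + (2 * ((q * ρ) ^ K / ((K ! : ℚ) * ((K + n)! : ℚ)))
        + τ * (ρ * 3 ^ m)) ≤ η)))))

theorem TM_Fs {n : ℕ} {lam : ℝ} {q τ ρ : ℚ} {K m : ℕ} {r : List ℚ} {η : ℚ}
    (hlam : |lam - q| ≤ τ) (h : ckF n q τ ρ K m r η = true) : TM ρ (Fs n lam) r η := by
  unfold ckF at h
  simp only [Bool.and_eq_true, decide_eq_true_iff] at h
  obtain ⟨hq, hρ, hτ, hm, hK, hη⟩ := h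
  have hq' : (0:ℝ) ≤ (q : ℝ) := by exact_mod_cast hq
  have hρ' : (0:ℝ) ≤ (ρ : ℝ) := by exact_mod_cast hρ
  have hτ' : (0:ℝ) ≤ (τ : ℝ) := by exact_mod_cast hτ
  have hm' : ((q : ℝ) + τ) * ρ ≤ (m : ℝ) := by exact_mod_cast hm
  have h1 := Bd_tail n K q ρ hq hρ hK
  have habs : |lam| ≤ (q : ℝ) + τ := by
    rw [show lam = (lam - q) + q by ring]
    refine (abs_add_le _ _).trans ?_
    rw [abs_of_nonneg hq']; linarith
  have h2 := Bd_par (ρ := (ρ : ℝ)) (lam := lam) (lh := (q : ℝ)) (M := (q : ℝ) + τ) hρ'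
    (by positivity) habs (by rw [abs_of_nonneg hq']; linarith) hlam n
  have h3 : Real.exp (((q : ℝ) + τ) * ρ) ≤ 3 ^ m := by
    calc Real.exp (((q : ℝ) + τ) * ρ) ≤ Real.exp (m : ℝ) := Real.exp_le_exp.2 hm'
      _ = Real.exp 1 ^ m := by rw [← Real.exp_nat_mul, mul_one]
      _ ≤ 3 ^ m := pow_le_pow_left₀ (Real.exp_pos 1).le (by
          have := Real.exp_one_lt_d9; linarith) m
  have h4 := (Bd_P hρ (subL (fL n q K) r)).add hρ' (h1.add hρ' h2)
  rw [P_subL, show P (fL n q K) - P r + (Fs n (q : ℝ) - P (fL n q K) + (Fs n lam - Fs n (q : ℝ)))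
    = Fs n lam - P r by ring] at h4
  refine Bd.mono h4 ?_
  have hη' : ((nrm ρ (subL (fL n q K) r) : ℚ) : ℝ)
      + (((2 * ((q * ρ) ^ K / ((K ! : ℚ) * ((K + n)! : ℚ))) : ℚ) : ℝ) + τ * (ρ * 3 ^ m)) ≤ (η : ℝ) := by
    exact_mod_cast hη
  have h5 : (τ : ℝ) * (ρ * Real.exp (((q : ℝ) + τ) * ρ)) ≤ τ * (ρ * 3 ^ m) := by gcongr
  linarith

end Pool.Agent.PPW.TM
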