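/-
MP_eb7570_an (helper61): more rules for Taylor models, integer lists with a common denominator.
-/
import Pool.Agent.Lib.MP_eb7570_an.TM.Series

set_option autoImplicit false
set_option linter.dupNamespace false

namespace Pool.Agent.PPW.TM

open PowerSeries Finset

/-- rational list from integers and a common denominator -/
def L (d : ℕ) (l : List ℤ) : List ℚ := l.map (fun z => mkRat z d)

theorem Bd.radius {ρ ρ' M : ℝ} {a : PowerSeries ℝ} (h0 : 0 ≤ ρ') (h : ρ' ≤ ρ) (ha : Bd ρ a M) :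
    Bd ρ' a M := fun K => by
  refine le_trans (sum_le_sum fun k _ => ?_) (ha K)
  exact mul_le_mul_of_nonneg_left (pow_le_pow_left₀ h0 h k) (abs_nonneg _)

def ckRad (ρ ρ' : ℚ) (p : List ℚ) (ε : ℚ) (r : List ℚ) (η : ℚ) : Bool :=
  decide (0 ≤ ρ') && (decide (ρ' ≤ ρ) && decide (nrm ρ' (subL p r) + ε ≤ η))

theorem TM.radius {ρ ρ' : ℚ} {a : PowerSeries ℝ} {p r : List ℚ} {ε η : ℚ} (ha : TM ρ a p ε)
    (h : ckRad ρ ρ' p ε r η = true) : TM ρ' a r η := by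
  unfold ckRad at h
  rw [Bool.and_eq_true, Bool.and_eq_true, decide_eq_true_iff, decide_eq_true_iff,
    decide_eq_true_iff] at h
  have h1 : (0:ℝ) ≤ (ρ' : ℝ) := by exact_mod_cast h.1
  have h2 : (ρ' : ℝ) ≤ (ρ : ℝ) := by exact_mod_cast h.2.1
  have h3 : TM ρ' a p ε := Bd.radius h1 h2 ha
  exact h3.round h.1 h.2.2

/-- All good series: finite Wiener norm at radius `ρ`. -/
def Gd (ρ : ℝ) (a : PowerSeries ℝ) : Prop := ∃ M, Bd ρ a M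

theorem TM.gd {ρ : ℚ} {a : PowerSeries ℝ} {p : List ℚ} {ε : ℚ} (hρ : 0 ≤ ρ) (h : TM ρ a p ε) :
    Gd (ρ : ℝ) a := ⟨_, h.bd hρ⟩

variable {ρ : ℝ} {a b : PowerSeries ℝ}

theorem Gd.add (hρ : 0 ≤ ρ) (ha : Gd ρ a) (hb : Gd ρ b) : Gd ρ (a + b) := by
  obtain ⟨M, hM⟩ := ha; obtain ⟨N, hN⟩ := hb; exact ⟨_, hM.add hρ hN⟩

theorem Gd.sub (hρ : 0 ≤ ρ) (ha : Gd ρ a) (hb : Gd ρ b) : Gd ρ (a - b) := by
  obtain ⟨M, hM⟩ := ha; obtain ⟨N, hN⟩ := hb; exact ⟨_, hM.sub hρ hN⟩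

theorem Gd.neg (ha : Gd ρ a) : Gd ρ (-a) := by
  obtain ⟨M, hM⟩ := ha; exact ⟨_, hM.neg⟩

theorem Gd.mul (hρ : 0 ≤ ρ) (ha : Gd ρ a) (hb : Gd ρ b) : Gd ρ (a * b) := by
  obtain ⟨M, hM⟩ := ha; obtain ⟨N, hN⟩ := hb; exact ⟨_, hM.mul hρ hN⟩

theorem Gd.C (t : ℝ) : Gd ρ (PowerSeries.C t) := ⟨_, Bd.const t⟩

theorem Gd.one : Gd ρ (1 : PowerSeries ℝ) := by
  have := Gd.C (ρ := ρ) (1:ℝ)
  rwa [map_one] at this

theorem Gd.X (hρ : 0 ≤ ρ) : Gd ρ (PowerSeries.X : PowerSeries ℝ) := by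
  obtain ⟨M, hM⟩ := Gd.one (ρ := ρ)
  have := hM.X_mul hρ
  rw [mul_one] at this
  exact ⟨_, this⟩

theorem Gd.Fs (hρ : 0 ≤ ρ) (n : ℕ) (lam : ℝ) : Gd ρ (Fs n lam) := ⟨_, Bd_Fs hρ n lam⟩

theorem Gd.dd {s0 : ℝ} (hs : |s0| < ρ) (ha : Gd ρ a) : Gd ρ (dd s0 a) := by
  obtain ⟨M, hM⟩ := ha; exact ⟨_, hM.dd hs⟩

theorem Gd.der {ρ' : ℝ} (h0 : 0 ≤ ρ') (h : ρ' < ρ) (ha : Gd ρ a) : Gd ρ' (der a) := by
  obtain ⟨M, hM⟩ := ha; exact ⟨_, hM.der h0 h⟩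

theorem Gd.radius {ρ' : ℝ} (h0 : 0 ≤ ρ') (h : ρ' ≤ ρ) (ha : Gd ρ a) : Gd ρ' a := by
  obtain ⟨M, hM⟩ := ha; exact ⟨_, Bd.radius h0 h hM⟩

theorem Gd.ev_add {s : ℝ} (hs : |s| ≤ ρ) (ha : Gd ρ a) (hb : Gd ρ b) :
    ev (a + b) s = ev a s + ev b s := by
  obtain ⟨M, hM⟩ := ha; obtain ⟨N, hN⟩ := hb; exact Pool.Agent.PPW.TM.ev_add hM hN hs

theorem Gd.ev_sub {s : ℝ} (hs : |s| ≤ ρ) (ha : Gd ρ a) (hb : Gd ρ b) :
    ev (a - b) s = ev a s - ev b s := by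
  obtain ⟨M, hM⟩ := ha; obtain ⟨N, hN⟩ := hb; exact Pool.Agent.PPW.TM.ev_sub hM hN hs

theorem Gd.ev_mul {s : ℝ} (hs : |s| ≤ ρ) (ha : Gd ρ a) (hb : Gd ρ b) :
    ev (a * b) s = ev a s * ev b s := by
  obtain ⟨M, hM⟩ := ha; obtain ⟨N, hN⟩ := hb; exact Pool.Agent.PPW.TM.ev_mul hM hN hs

theorem ev_X (s : ℝ) : ev (PowerSeries.X : PowerSeries ℝ) s = s := by
  obtain ⟨M, hM⟩ := Gd.one (ρ := |s|)
  have h := ev_X_mul hM (s := s) le_rfl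
  rw [mul_one, ev_one, mul_one] at h
  exact h

theorem Gd.hasDerivAt {s : ℝ} (hs : |s| < ρ) (ha : Gd ρ a) : HasDerivAt (ev a) (ev (Pool.Agent.PPW.TM.der a) s) s := by
  obtain ⟨M, hM⟩ := ha; exact hasDerivAt_ev hM hs

theorem Gd.dd_spec {s0 : ℝ} (hs : |s0| < ρ) (ha : Gd ρ a) :
    (PowerSeries.C s0 - PowerSeries.X) * Pool.Agent.PPW.TM.dd s0 a = a - PowerSeries.C (ev a s0) := by
  obtain ⟨M, hM⟩ := ha; exact Pool.Agent.PPW.TM.dd_spec hM hs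

/-! ### derivation rules -/

theorem der_mul (a b : PowerSeries ℝ) : der (a * b) = der a * b + a * der b := by
  have h : ∀ f : PowerSeries ℝ, der f = PowerSeries.derivative ℝ f := by
    intro f; ext k; rw [coeff_der, PowerSeries.coeff_derivative]; ring
  rw [h, h, h, Derivation.leibniz]
  simp only [smul_eq_mul]
  ring

theorem der_C (t : ℝ) : der (PowerSeries.C t) = 0 := by
  ext k; rw [coeff_der, coeff_C_of_ne_zero (Nat.succ_ne_zero k)]; simp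

theorem der_X : der (PowerSeries.X : PowerSeries ℝ) = 1 := by
  ext k
  rw [coeff_der]
  rcases k with _ | k
  · simp
  · rw [coeff_X]; simp [PowerSeries.coeff_one]

theorem der_neg (a : PowerSeries ℝ) : der (-a) = - der a := by
  ext k; rw [map_neg, coeff_der, coeff_der, map_neg]; ring

theorem der_one : der (1 : PowerSeries ℝ) = 0 := by
  rw [← map_one (PowerSeries.C (R := ℝ)), der_C]

theorem der_C_mul (t : ℝ) (a : PowerSeries ℝ) : der (PowerSeries.C t * a) = PowerSeries.C t * der a := by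
  rw [der_mul, der_C]; ring

end Pool.Agent.PPW.TM
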